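import Pool.Agent.H381R4.CM.Stubs

/-!
# PDF (helper77): positive definiteness of `∑ a_k u_k u_kᵀ`
-/

set_option autoImplicit false
open MeasureTheory Matrix Filter Topology
open scoped ENNReal BigOperators Pointwise

namespace Pool.Agent.H381CM

namespace PDFh

theorem quad {d : ℕ} {ι : Type} [Fintype ι] (u : ι → V d) (a : ι → ℝ) (x : V d) :
    x ⬝ᵥ (AA u a) *ᵥ x = ∑ k, a k * (u k ⬝ᵥ x) ^ 2 := by
  unfold AA
  rw [Matrix.sum_mulVec, dotProduct_sum]
  refine Finset.sum_congr rfl fun k _ => ?_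
  rw [Matrix.smul_mulVec, dotProduct_smul, vecMulVec_mulVec]
  have h : x ⬝ᵥ u k = u k ⬝ᵥ x := dotProduct_comm _ _
  simp only [smul_eq_mul, op_smul_eq_smul, dotProduct_smul, h]
  ring

theorem herm {d : ℕ} {ι : Type} [Fintype ι] (u : ι → V d) (a : ι → ℝ) :
    (AA u a).IsHermitian := by
  unfold AA
  ext i j
  simp only [conjTranspose_apply, Matrix.sum_apply, Matrix.smul_apply, vecMulVec_apply,
    star_trivial, smul_eq_mul]
  refine Finset.sum_congr rfl fun k _ => ?_
  ring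

end PDFh

theorem T_PDF : S_PDF := by
  intro d ι _ u a
  refine ⟨PDFh.quad u a, fun hs ha => ?_⟩
  refine PosDef.of_dotProduct_mulVec_pos (PDFh.herm u a) fun x hx => ?_
  rw [star_trivial, PDFh.quad]
  by_contra hcon
  have h0 : ∀ k ∈ (Finset.univ : Finset ι), 0 ≤ a k * (u k ⬝ᵥ x) ^ 2 := fun k _ =>
    mul_nonneg (ha k).le (sq_nonneg _)
  have h1 := (Finset.sum_eq_zero_iff_of_nonneg h0).1
    (le_antisymm (not_lt.1 hcon) (Finset.sum_nonneg h0))
  apply hx
  apply hs
  intro k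
  have h2 := h1 k (Finset.mem_univ k)
  rcases mul_eq_zero.1 h2 with h3 | h3
  · exact absurd h3 (ha k).ne'
  · exact pow_eq_zero_iff (two_ne_zero) |>.1 h3

end Pool.Agent.H381CM
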